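import Pool.Agent.Lib_helper80.AVM.LA
import Pool.Agent.Lib_helper66.AVM.QS

/-! Project AVM (MP_05dcdc_nt), block LE: sums with an odd quartic part (from LA, QS). -/

set_option autoImplicit false

namespace Pool.Agent.AVM

open Finset Filter Topology Pool.Agent.PQ Pool.Agent.GL

/-- the sign -/
noncomputable def LE_sg (b : ZMod 2) : ℂ := if b = 0 then 1 else -1

theorem LE_sg_norm (b : ZMod 2) : ‖LE_sg b‖ = 1 := by
  unfold LE_sg
  split_ifs <;> simp

theorem LE_cases : ∀ b : ZMod 2, b = 0 ∨ b = 1 := by decide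

theorem LE_ind (b c : ZMod 2) : (1 + LE_sg b * LE_sg c) / 2 = if b = c then 1 else 0 := by
  have h1 : (1 : ZMod 2) ≠ 0 := by decide
  have h0 : (0 : ZMod 2) ≠ 1 := by decide
  have e0 : LE_sg 0 = 1 := if_pos rfl
  have e1 : LE_sg 1 = -1 := if_neg h1
  rcases LE_cases b with rfl | rfl <;> rcases LE_cases c with rfl | rfl
  · rw [if_pos rfl, e0]
    norm_num
  · rw [if_neg h0, e0, e1]
    norm_num
  · rw [if_neg h1, e0, e1]
    norm_num
  · rw [if_pos rfl, e1]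
    norm_num

/-- the exponents -/
def LE_e {k : ℕ} (S T : Finset (Fin k)) (i : Fin k) : ℕ :=
  (if i ∈ S then 1 else 0) + (if i ∈ T then 2 else 0)

theorem LE_e_mod {k : ℕ} (S T : Finset (Fin k)) (i : Fin k) (hi : i ∈ S) : LE_e S T i % 4 ≠ 0 := by
  unfold LE_e
  rw [if_pos hi]
  split_ifs <;> norm_num

theorem LE_prod {k : ℕ} (S T : Finset (Fin k)) (x : Fin k → ℂ) :
    ∏ i, x i ^ LE_e S T i = (∏ i ∈ S, x i) * ∏ i ∈ T, x i ^ 2 := by
  classical
  have h1 : ∀ i, x i ^ LE_e S T i = (if i ∈ S then x i else 1) * (if i ∈ T then x i ^ 2 else 1) := by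
    intro i
    unfold LE_e
    rw [pow_add]
    split_ifs <;> simp
  rw [prod_congr rfl fun i _ => h1 i, prod_mul_distrib, prod_ite_mem, prod_ite_mem, univ_inter,
    univ_inter]

/-- the expansion -/
theorem LE_expand {k : ℕ} (x : Fin k → ℂ) (b : Fin k → ZMod 2) (hx : ∀ i, x i ^ 2 = LE_sg (b i))
    (G : (Fin k → ZMod 2) → ℂ) (S : (Fin k → ZMod 2) → Finset (Fin k)) :
    G b * ∏ i ∈ S b, x i = ∑ β : Fin k → ZMod 2, ∑ S₀ : Finset (Fin k), ∑ T : Finset (Fin k),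
      (1 / 2 ^ k : ℂ) * (((if S β = S₀ then G β else 0) * ∏ i ∈ T, LE_sg (β i)) *
        ∏ i, x i ^ LE_e S₀ T i) := by
  classical
  have h1 : ∀ β : Fin k → ZMod 2, ∏ i, ((1 + LE_sg (β i) * x i ^ 2) / 2) = if β = b then 1 else 0 := by
    intro β
    rw [prod_congr rfl fun i _ => by rw [hx i, LE_ind (β i) (b i)]]
    by_cases h : β = b
    · rw [if_pos h, h]
      exact prod_eq_one fun i _ => if_pos rfl
    · rw [if_neg h]
      obtain ⟨i, hi⟩ := Function.ne_iff.1 h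
      exact prod_eq_zero (mem_univ i) (if_neg hi)
  have h2 : ∀ β : Fin k → ZMod 2, ∏ i, ((1 + LE_sg (β i) * x i ^ 2) / 2) =
      ∑ T : Finset (Fin k), (1 / 2 ^ k : ℂ) * ((∏ i ∈ T, LE_sg (β i)) * ∏ i ∈ T, x i ^ 2) := by
    intro β
    rw [prod_div_distrib, prod_one_add, prod_const, card_univ, Fintype.card_fin, sum_div,
      powerset_univ]
    refine sum_congr rfl fun T _ => ?_
    rw [prod_mul_distrib]
    ring
  have h3 : G b * ∏ i ∈ S b, x i = ∑ β : Fin k → ZMod 2, (G β * ∏ i ∈ S β, x i) *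
      ∏ i, ((1 + LE_sg (β i) * x i ^ 2) / 2) := by
    rw [sum_congr rfl fun β _ => by rw [h1 β]]
    simp
  rw [h3]
  refine sum_congr rfl fun β _ => ?_
  rw [h2 β, mul_sum, sum_comm]
  refine sum_congr rfl fun T _ => ?_
  rw [sum_eq_single (S β)]
  · rw [if_pos rfl, LE_prod]
    ring
  · intro S₀ _ hS
    rw [if_neg (Ne.symm hS)]
    ring
  · intro h
    exact absurd (mem_univ _) h

/-- powers of characters at units -/
theorem LE_pow {p : ℕ} (χ : DirichletCharacter ℂ p) (n : ℕ) {a : ZMod p} (ha : IsUnit a) :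
    (χ ^ n) a = (χ a) ^ n := by
  obtain ⟨u, rfl⟩ := ha
  exact MulChar.pow_apply_coe χ n u

theorem LE_GT {k X : ℕ} {u : Fin (k + 1) → ℕ} (hu : u ∈ GT k X) : (∀ i, (u i).Prime) ∧ Good k u := by
  unfold GT Tup at hu
  simp only [mem_filter, Fintype.mem_piFinset] at hu
  exact ⟨fun i => (mem_filter.1 (hu.1.1 i)).2, hu.2⟩

/-- the values of the quartic characters -/
theorem LE_val {k X : ℕ} {u : Fin (k + 1) → ℕ} (hu : u ∈ GT k X) (i : Fin k) :
    IsUnit ((qq k u : ℕ) : ZMod (u i.castSucc)) ∧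
      (qc (u i.castSucc) ((qq k u : ℕ) : ZMod (u i.castSucc))) ^ 2 = LE_sg (bs k u i) := by
  obtain ⟨hp, hinj, h4, hq4, h8⟩ := LE_GT hu
  have hne : u i.castSucc ≠ qq k u := fun h => by
    have h1 := hinj h
    exact absurd h1 (Fin.castSucc_lt_last i).ne
  have hcop : Nat.Coprime (qq k u) (u i.castSucc) :=
    ((Nat.coprime_primes (hp _) (hp _)).2 hne).symm
  have hunit : IsUnit ((qq k u : ℕ) : ZMod (u i.castSucc)) :=
    (ZMod.isUnit_iff_coprime _ _).2 hcop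
  refine ⟨hunit, ?_⟩
  rw [← LE_pow _ 2 hunit, ← qc_two (u i.castSucc) (hp _) (h4 i)]
  have hc : (((qq k u : ℕ) : ℤ)).gcd (u i.castSucc : ℤ) = 1 := by
    rw [Int.gcd_natCast_natCast]
    exact hcop
  unfold bs bit LE_sg
  rcases jacobiSym.eq_one_or_neg_one hc with h | h
  · rw [h, if_pos rfl, if_pos rfl]
    norm_num
  · rw [h]
    norm_num

theorem LE_LL {k X : ℕ} (hX : 3 ≤ X) : 0 ≤ LL k X := by
  have h3 : (3 : ℝ) ≤ X := by exact_mod_cast hX
  have h1 : 1 ≤ Real.log X := by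
    rw [Real.le_log_iff_exp_le (by linarith)]
    have := Real.exp_one_lt_d9
    linarith
  unfold LL
  have h2 : 0 ≤ Real.log (Real.log X) := Real.log_nonneg h1
  positivity

/-- BLOCK LE -/
theorem le (k : ℕ) (ε : ℝ) (hε : 0 < ε) : ∃ X₀ : ℕ, ∀ X : ℕ, X₀ ≤ X →
    ∀ (g : (Fin k → ℕ) → (Fin k → ZMod 2) → ℂ) (S : (Fin k → ℕ) → (Fin k → ZMod 2) → Finset (Fin k)),
    (∀ v β, ‖g v β‖ ≤ 1) → (∀ v β, g v β ≠ 0 → (S v β).Nonempty) →
    ‖∑ u ∈ GT k X, g (vv k u) (bs k u) *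
      ∏ i ∈ S (vv k u) (bs k u), qc (u i.castSucc) (qq k u : ZMod (u i.castSucc))‖ ≤ ε * LL k X := by
  classical
  obtain ⟨δ, hδ⟩ : ∃ δ : ℝ, δ = ε / 4 ^ k := ⟨_, rfl⟩
  have hδ0 : 0 < δ := by
    rw [hδ]
    positivity
  have key : ∀ S₀ T : Finset (Fin k), ∃ X₀ : ℕ, ∀ X : ℕ, X₀ ≤ X → ∀ a : (Fin k → ℕ) → ℂ,
      (∀ v, ‖a v‖ ≤ 1) → (S₀ = ∅ → ∀ v, a v = 0) →
      ‖∑ u ∈ GT k X, a (vv k u) * ∏ i : Fin k, (qc (u i.castSucc) ^ LE_e S₀ T i)
        (qq k u : ZMod (u i.castSucc))‖ ≤ δ * LL k X := by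
    intro S₀ T
    rcases S₀.eq_empty_or_nonempty with h | ⟨i, hi⟩
    · refine ⟨3, fun X hX a _ ha => ?_⟩
      rw [sum_eq_zero fun u _ => by rw [ha h, zero_mul], norm_zero]
      exact mul_nonneg hδ0.le (LE_LL hX)
    · obtain ⟨X₀, h⟩ := la k (LE_e S₀ T) ⟨i, LE_e_mod S₀ T i hi⟩ δ hδ0
      exact ⟨X₀, fun X hX a ha _ => h X hX a ha⟩
  choose X₁ hX₁ using key
  refine ⟨(univ : Finset (Finset (Fin k) × Finset (Fin k))).sup fun z => X₁ z.1 z.2,
    fun X hX g S hg hS => ?_⟩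
  have hbig : ∀ S₀ T, X₁ S₀ T ≤ X := fun S₀ T =>
    (le_sup (f := fun z : Finset (Fin k) × Finset (Fin k) => X₁ z.1 z.2) (mem_univ (S₀, T))).trans hX
  -- the expansion of every term
  have hterm : ∀ u ∈ GT k X, g (vv k u) (bs k u) *
      ∏ i ∈ S (vv k u) (bs k u), qc (u i.castSucc) (qq k u : ZMod (u i.castSucc)) =
      ∑ β : Fin k → ZMod 2, ∑ S₀ : Finset (Fin k), ∑ T : Finset (Fin k),
        (1 / 2 ^ k : ℂ) * (((if S (vv k u) β = S₀ then g (vv k u) β else 0) *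
          ∏ i ∈ T, LE_sg (β i)) *
          ∏ i : Fin k, (qc (u i.castSucc) ^ LE_e S₀ T i) (qq k u : ZMod (u i.castSucc))) := by
    intro u hu
    rw [LE_expand (fun i => qc (u i.castSucc) ((qq k u : ℕ) : ZMod (u i.castSucc))) (bs k u)
      (fun i => (LE_val hu i).2) (g (vv k u)) (S (vv k u))]
    refine sum_congr rfl fun β _ => sum_congr rfl fun S₀ _ => sum_congr rfl fun T _ => ?_
    rw [prod_congr rfl fun i _ => LE_pow (qc (u i.castSucc)) (LE_e S₀ T i) (LE_val hu i).1]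
  have hswap : ∑ u ∈ GT k X, g (vv k u) (bs k u) *
      ∏ i ∈ S (vv k u) (bs k u), qc (u i.castSucc) (qq k u : ZMod (u i.castSucc)) =
      ∑ β : Fin k → ZMod 2, ∑ S₀ : Finset (Fin k), ∑ T : Finset (Fin k),
        (1 / 2 ^ k : ℂ) * ∑ u ∈ GT k X, ((if S (vv k u) β = S₀ then g (vv k u) β else 0) *
          ∏ i ∈ T, LE_sg (β i)) *
          ∏ i : Fin k, (qc (u i.castSucc) ^ LE_e S₀ T i) (qq k u : ZMod (u i.castSucc)) := by
    rw [sum_congr rfl hterm, sum_comm]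
    refine sum_congr rfl fun β _ => ?_
    rw [sum_comm]
    refine sum_congr rfl fun S₀ _ => ?_
    rw [sum_comm]
    exact sum_congr rfl fun T _ => (mul_sum _ _ _).symm
  rw [hswap]
  have hone : ∀ (β : Fin k → ZMod 2) (S₀ T : Finset (Fin k)),
      ‖(1 / 2 ^ k : ℂ) * ∑ u ∈ GT k X, ((if S (vv k u) β = S₀ then g (vv k u) β else 0) *
          ∏ i ∈ T, LE_sg (β i)) *
          ∏ i : Fin k, (qc (u i.castSucc) ^ LE_e S₀ T i) (qq k u : ZMod (u i.castSucc))‖ ≤
        1 / 2 ^ k * (δ * LL k X) := by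
    intro β S₀ T
    rw [norm_mul]
    have e1 : ‖(1 / 2 ^ k : ℂ)‖ = 1 / 2 ^ k := by
      rw [norm_div, norm_one, norm_pow, Complex.norm_ofNat]
    rw [e1]
    refine mul_le_mul_of_nonneg_left ?_ (by positivity)
    refine hX₁ S₀ T X (hbig S₀ T) (fun v => (if S v β = S₀ then g v β else 0) *
      ∏ i ∈ T, LE_sg (β i)) (fun v => ?_) fun h v => ?_
    · rw [norm_mul, norm_prod, prod_congr rfl fun i _ => LE_sg_norm (β i), prod_const_one, mul_one]
      split_ifs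
      · exact hg v β
      · rw [norm_zero]
        exact zero_le_one
    · by_cases h1 : S v β = S₀
      · by_cases h2 : g v β = 0
        · simp [h2]
        · have h3 := hS v β h2
          rw [h1, h] at h3
          exact absurd h3 not_nonempty_empty
      · simp [h1]
  calc _ ≤ ∑ β : Fin k → ZMod 2, ∑ S₀ : Finset (Fin k), ∑ T : Finset (Fin k),
        1 / 2 ^ k * (δ * LL k X) :=
        (norm_sum_le _ _).trans (sum_le_sum fun β _ => (norm_sum_le _ _).trans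
          (sum_le_sum fun S₀ _ => (norm_sum_le _ _).trans (sum_le_sum fun T _ => hone β S₀ T)))
    _ = ε * LL k X := by
        simp only [sum_const, card_univ, Fintype.card_finset, Fintype.card_fin, Fintype.card_pi,
          ZMod.card, prod_const, nsmul_eq_mul]
        rw [hδ]
        push_cast
        have h4 : (4 : ℝ) ^ k = 2 ^ k * 2 ^ k := by
          rw [← mul_pow]
          norm_num
        rw [h4]
        field_simp

end Pool.Agent.AVM
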